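import Pool.Agent.C4U.Stmts

/-! Squad C4U (MP_be2f05_lc), row PRQ: cliques and thresholds as tests and numbers. -/

set_option autoImplicit false

namespace Pool.Agent.C4U.H69

open Pool.Agent.C4U
open Pool.Agent.C4F (Lt cn NumF Kit)
open Pool.Agent.Helper53_CookLevin (PGen)
open Pool.Agent.Helper53_Chan (Test Test.congr)

section

variable (K : Kit)

include K

theorem up {r : ℕ} {f : (Fin r → List Lt) → ℕ} (h : NumF r f) :
    NumF (r + 1) (fun ρ => f (fun i => ρ i.succ)) := K.rename r (r + 1) Fin.succ f h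

theorem v0 (r : ℕ) : NumF (r + 1) (fun ρ => (ρ 0).length) := K.var (r + 1) 0

theorem imp {r : ℕ} {P Q : (Fin r → List Lt) → Prop} (hP : Test r P) (hQ : Test r Q) :
    Test r (fun ρ => P ρ → Q ρ) := by
  refine Test.congr (K.or _ _ _ (K.not _ _ hP) hQ) fun ρ => ?_
  constructor
  · intro h hp
    rcases h with h | h
    · exact absurd hp h
    · exact h
  · intro h
    by_cases hp : P ρ
    · exact Or.inr (h hp)
    · exact Or.inl hp

end

/-- PRQ. -/
theorem prq (pra : PraStmt) : PrqStmt := by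
  intro K
  have hN : ∀ (r : ℕ) (e : Fin 5 → Fin r), NumF r (fun ρ => (rd (At e ρ)).N) :=
    fun r e => (pra K r e).2.1
  have hCl : ∀ (r : ℕ) (e : Fin 5 → Fin r) (x y : (Fin r → List Lt) → ℕ), NumF r x → NumF r y →
      Test r (fun ρ => (rd (At e ρ)).Cl (x ρ) (y ρ)) :=
    fun r e x y hx hy => ((pra K r e).2.2.2.2 x y hx hy).2.2.1
  have hJ : ∀ (r : ℕ) (e : Fin 5 → Fin r) (x : (Fin r → List Lt) → ℕ), NumF r x →
      Test r (fun ρ => (rd (At e ρ)).J (x ρ)) :=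
    fun r e x hx => ((pra K r e).2.2.2.2 x x hx hx).2.1
  have hrc : ∀ (r : ℕ) (e : Fin 5 → Fin r) (x : (Fin r → List Lt) → ℕ), NumF r x →
      NumF r (fun ρ => rc (At e ρ) (x ρ)) :=
    fun r e x hx => ((pra K r e).2.2.2.2 x x hx hx).2.2.2.1
  have hQ : ∀ (r : ℕ) (e : Fin 5 → Fin r) (a b v : (Fin r → List Lt) → ℕ), NumF r a → NumF r b →
      NumF r v → Test r (fun ρ => (rd (At e ρ)).Q (a ρ) (b ρ) (v ρ)) := by
    intro r e a b v ha hb hv
    refine K.and _ _ _ (K.lt _ _ _ hv (hN r e)) (K.and _ _ _ (hCl r e _ _ hv ha)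
      (K.and _ _ _ (hCl r e _ _ hv hb) (imp K (K.eq _ _ _ ha hb) ?_)))
    refine K.all r (fun ρ => (rd (At e ρ)).N)
      (fun u ρ => (rd (At e ρ)).J u → (rd (At e ρ)).Cl (v ρ) u → u = a ρ) (hN r e) ?_
    exact imp K (hJ (r + 1) (fun i => (e i).succ) _ (v0 K r))
      (imp K (hCl (r + 1) (fun i => (e i).succ) _ _ (up K hv) (v0 K r))
        (K.eq _ _ _ (v0 K r) (up K ha)))
  have hK : ∀ (r : ℕ) (e : Fin 5 → Fin r) (i x : (Fin r → List Lt) → ℕ), NumF r i → NumF r x →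
      Test r (fun ρ => (rd (At e ρ)).K (rc (At e ρ)) (i ρ) (x ρ)) := by
    intro r e i x hi hx
    exact hQ r e _ _ _
      (K.sub _ _ _ (hrc r e _ (K.mul _ _ _ (K.cst r 2) hi)) (K.cst r 1))
      (K.sub _ _ _ (hrc r e _ (K.add _ _ _ (K.mul _ _ _ (K.cst r 2) hi) (K.cst r 1))) (K.cst r 1))
      hx
  have hr : ∀ (r : ℕ) (e : Fin 5 → Fin r) (j x : (Fin r → List Lt) → ℕ), NumF r j → NumF r x →
      NumF r (fun ρ => (rd (At e ρ)).r (rc (At e ρ)) (j ρ) (x ρ)) := by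
    intro r e j x hj hx
    exact K.cnt r (fun ρ => (rd (At e ρ)).N)
      (fun y ρ => (rd (At e ρ)).K (rc (At e ρ)) (j ρ) y ∧ (rd (At e ρ)).Cl (x ρ) y) (hN r e)
      (K.and _ _ _ (hK (r + 1) (fun i => (e i).succ) _ _ (up K hj) (v0 K r))
        (hCl (r + 1) (fun i => (e i).succ) _ _ (up K hx) (v0 K r)))
  have ht : ∀ (r : ℕ) (e : Fin 5 → Fin r) (i j x : (Fin r → List Lt) → ℕ), NumF r i → NumF r j →
      NumF r x → NumF r (fun ρ => (rd (At e ρ)).t (rc (At e ρ)) (i ρ) (j ρ) (x ρ)) := by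
    intro r e i j x hi hj hx
    refine K.cnt r (fun ρ => (rd (At e ρ)).N + 1)
      (fun v ρ => ∀ y < (rd (At e ρ)).N, (rd (At e ρ)).K (rc (At e ρ)) (i ρ) y →
        (rd (At e ρ)).Cl y (x ρ) → v < (rd (At e ρ)).r (rc (At e ρ)) (j ρ) y)
      (K.add _ _ _ (hN r e) (K.cst r 1)) ?_
    refine K.all (r + 1) (fun ρ => (rd (At (fun i => (e i).succ) ρ)).N)
      (fun y ρ => (rd (At (fun i => (e i).succ) ρ)).K (rc (At (fun i => (e i).succ) ρ))
          (i (fun i => ρ i.succ)) y →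
        (rd (At (fun i => (e i).succ) ρ)).Cl y (x (fun i => ρ i.succ)) →
        (ρ 0).length < (rd (At (fun i => (e i).succ) ρ)).r (rc (At (fun i => (e i).succ) ρ))
          (j (fun i => ρ i.succ)) y) (hN _ _) ?_
    have h1 := up K (v0 K r)
    have h0 := v0 K (r + 1)
    exact imp K (hK (r + 2) (fun i => (e i).succ.succ) _ _ (up K (up K hi)) h0)
      (imp K (hCl (r + 2) (fun i => (e i).succ.succ) _ _ h0 (up K (up K hx)))
        (K.lt _ _ _ h1 (hr (r + 2) (fun i => (e i).succ.succ) _ _ (up K (up K hj)) h0)))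
  intro r e i j x hi hj hx
  exact ⟨hK r e i x hi hx, hr r e j x hj hx, ht r e i j x hi hj hx⟩

end Pool.Agent.C4U.H69
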